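import Pool.Agent.helper82.SW.SpecW

/-!
# Project sp, module PMC: portmanteau for closed sets
-/

namespace Pool.Agent.helper82.SW

open MeasureTheory Filter Topology
open scoped BoundedContinuousFunction NNReal ENNReal

/-- the thickened indicator with real values -/
noncomputable def PMC_g {X : Type} [EMetricSpace X] (C : Set X) (k : ℕ) : X →ᵇ ℝ :=
  BoundedContinuousFunction.ofNormedAddCommGroup
    (fun x => ((thickenedIndicator (Nat.one_div_pos_of_nat (α := ℝ) (n := k)) C x : ℝ≥0) : ℝ))
    (by fun_prop) 1 (by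
      intro x
      rw [Real.norm_of_nonneg (NNReal.coe_nonneg _)]
      exact_mod_cast thickenedIndicator_le_one _ C x)

theorem PMC_lim {X : Type} [EMetricSpace X] [MeasurableSpace X] [BorelSpace X] (μ : Measure X)
    [IsProbabilityMeasure μ] (C : Set X) (hC : IsClosed C) :
    Tendsto (fun k => ∫ x, PMC_g C k x ∂μ) atTop (𝓝 (μ.real C)) := by
  have h1 := tendsto_lintegral_thickenedIndicator_of_isClosed μ hC
    (fun k => Nat.one_div_pos_of_nat (α := ℝ) (n := k)) tendsto_one_div_add_atTop_nhds_zero_nat
  have h2 := (ENNReal.tendsto_toReal (measure_ne_top μ C)).comp h1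
  refine h2.congr fun k => ?_
  exact BoundedContinuousFunction.toReal_lintegral_coe_eq_integral _ μ

theorem PMC : PMC_stmt := by
  classical
  intro X _ _ _ μ _ ι _ w p hw hlim C t hC hfr
  refine ge_of_tendsto (PMC_lim μ C hC) (Eventually.of_forall fun k => ?_)
  refine ge_of_tendsto_of_frequently (hlim (PMC_g C k)) (hfr.mono fun n hn => hn.trans ?_)
  refine Finset.sum_le_sum fun i _ => ?_
  split_ifs with h
  · have h1 : PMC_g C k (p n i) = 1 := by
      show (((thickenedIndicator (Nat.one_div_pos_of_nat (α := ℝ) (n := k)) C (p n i) : ℝ≥0)) : ℝ) = 1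
      rw [thickenedIndicator_one _ C h]
      rfl
    rw [h1, mul_one]
  · exact mul_nonneg (hw n i) (NNReal.coe_nonneg _)

end Pool.Agent.helper82.SW
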